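import Pool.Agent.P.MP_d1c5d3_co.Core

/-! A checker for systems of inequalities between the generating functions of `Core`. -/

set_option autoImplicit false

open Finset

namespace Pool.Agent.P.MP_d1c5d3_co

/-- evaluate `n` before passing it on -/
noncomputable def frc {α : Type} (n : ℕ) (f : ℕ → α) : α :=
  Nat.rec (f 0) (fun k _ => f (Nat.succ k)) n

lemma frc_eq {α : Type} (n : ℕ) (f : ℕ → α) : frc n f = f n := by cases n <;> rfl

def dec (c : ℕ) : Cell := (((c / 32 : ℕ) : ℤ), ((c % 32 : ℕ) : ℤ))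

def dg (r k : ℕ) : ℕ := Nat.mod (Nat.shiftRight r (Nat.mul 16 k)) 65536

/-- the cells coded by the digits `k, …, k + n - 1` of `r` -/
def sD (r k n : ℕ) : Set Cell := {z | ∃ j < n, dec (dg r (k + j)) = z}

def mem (m c : ℕ) : Bool := Nat.ble 64 c && Nat.testBit m c

def sM (m : ℕ) : Set Cell := {z | ∃ c, mem m c = true ∧ dec c = z}

def ins (m c : ℕ) : ℕ :=
  Nat.xor (Nat.lor m (Nat.pow 2 c)) (Nat.mod (Nat.mul c 11400714819323198485) 18446744073709551616)

lemma mem_ins {m c d : ℕ} (h : mem (ins m c) d = true) : mem m d = true ∨ d = c := by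
  simp only [mem, Bool.and_eq_true, Nat.ble_eq] at h ⊢
  obtain ⟨h1, h2⟩ := h
  have h3 : Nat.testBit (c * 11400714819323198485 % 18446744073709551616) d = false :=
    Nat.testBit_lt_two_pow ((Nat.mod_lt _ (by norm_num)).trans_le
      (show 2 ^ 64 ≤ 2 ^ d from Nat.pow_le_pow_right (by norm_num) h1))
  change Nat.testBit ((m ||| 2 ^ c) ^^^ (c * 11400714819323198485 % 18446744073709551616)) d = true
    at h2
  rw [Nat.testBit_xor, h3, Bool.xor_false, Nat.testBit_or, Bool.or_eq_true,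
    Nat.testBit_two_pow] at h2
  exact h2.imp (fun h => ⟨h1, h⟩) fun h => (of_decide_eq_true h).symm

noncomputable def allD (r k : ℕ) (p : ℕ → Bool) (n : ℕ) : Bool :=
  Nat.rec true (fun j ih => frc (dg r (Nat.add k j)) p && ih) n

lemma allD_spec {r k n : ℕ} {p : ℕ → Bool} (h : allD r k p n = true) :
    ∀ j < n, p (dg r (k + j)) = true := by
  induction n with
  | zero => simp
  | succ n ih =>
    have h' : (frc (dg r (k + n)) p && allD r k p n) = true := h
    rw [frc_eq, Bool.and_eq_true] at h'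
    intro j hj
    rcases Nat.lt_succ_iff_lt_or_eq.1 hj with hj | rfl
    · exact ih h'.2 j hj
    · exact h'.1

noncomputable def orD (r k : ℕ) (f : ℕ → ℕ) (m n : ℕ) : ℕ :=
  Nat.rec m (fun j ih => frc (dg r (Nat.add k j)) fun c => frc (f c) fun d => ins ih d) n

lemma orD_spec {r k m n d : ℕ} {f : ℕ → ℕ} (h : mem (orD r k f m n) d = true) :
    mem m d = true ∨ ∃ j < n, d = f (dg r (k + j)) := by
  induction n with
  | zero => exact Or.inl h
  | succ n ih =>
    have h' : mem (frc (dg r (k + n)) fun c => frc (f c) fun d => ins (orD r k f m n) d) d = true := h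
    rw [frc_eq, frc_eq] at h'
    rcases mem_ins h' with h' | h'
    · exact (ih h').imp id fun ⟨j, hj, e⟩ => ⟨j, by omega, e⟩
    · exact Or.inr ⟨n, by omega, h'⟩

lemma sM_orD_id {r k m n : ℕ} : sM (orD r k id m n) ⊆ sM m ∪ sD r k n := by
  rintro _ ⟨d, hd, rfl⟩
  rcases orD_spec hd with h | ⟨j, hj, rfl⟩
  · exact Or.inl ⟨d, h, rfl⟩
  · exact Or.inr ⟨j, hj, rfl⟩

lemma sM_ins {m c : ℕ} : sM (ins m c) ⊆ sM m ∪ {dec c} := by
  rintro _ ⟨d, hd, rfl⟩
  rcases mem_ins hd with h | rfl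
  · exact Or.inl ⟨d, h, rfl⟩
  · exact Or.inr rfl

lemma sM_zero : sM 0 = ∅ := Set.eq_empty_of_forall_notMem fun _ ⟨d, hd, _⟩ => by
  simp [mem] at hd

lemma sD_sub {r k n m : ℕ} (h : allD r k (mem m) n = true) : sD r k n ⊆ sM m := by
  rintro _ ⟨j, hj, rfl⟩
  exact ⟨_, allD_spec h j hj, rfl⟩

/-- one coordinate of a symmetry -/
def ax (a : Bool) (d u : ℕ) : ℕ := cond a (Nat.sub d u) (Nat.sub (Nat.add d u) 32)

def axE (a : Bool) (d : ℕ) : ℤ ≃ ℤ := cond a (Equiv.subLeft (d : ℤ)) (Equiv.addLeft ((d : ℤ) - 32))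

lemma ax_spec {a : Bool} {d u : ℕ} (h : 0 < ax a d u) : (ax a d u : ℤ) = axE a d u := by
  cases a
  · change 0 < d + u - 32 at h
    change ((d + u - 32 : ℕ) : ℤ) = (d : ℤ) - 32 + u
    omega
  · change 0 < d - u at h
    change ((d - u : ℕ) : ℤ) = (d : ℤ) - u
    omega

lemma axE_abs (a : Bool) (d : ℕ) (u w : ℤ) : |axE a d u - axE a d w| = |u - w| := by
  cases a
  · change |(d : ℤ) - 32 + u - ((d : ℤ) - 32 + w)| = _
    congr 1
    ring
  · change |(d : ℤ) - u - ((d : ℤ) - w)| = _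
    rw [abs_sub_comm]
    congr 1
    ring

/-- the image of the code `c` under a symmetry, or junk below `64` -/
noncomputable def pos (s a b : Bool) (dx dy c : ℕ) : ℕ :=
  frc (ax b dy (cond s (Nat.div c 32) (Nat.mod c 32))) fun Y =>
    cond (Nat.beq (Nat.div (Nat.add Y 30) 31) 1)
      (Nat.add (Nat.mul 32 (ax a dx (cond s (Nat.mod c 32) (Nat.div c 32)))) Y) 0

def symE (s a b : Bool) (dx dy : ℕ) : Cell ≃ Cell :=
  (cond s (Equiv.prodComm ℤ ℤ) (Equiv.refl _)).trans ((axE a dx).prodCongr (axE b dy))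

lemma symE_adj (s a b : Bool) (dx dy : ℕ) (p q : Cell)
    (h : adj (symE s a b dx dy p) (symE s a b dx dy q)) : adj p q := by
  unfold adj at *
  cases s
  · change |axE a dx p.1 - axE a dx q.1| + |axE b dy p.2 - axE b dy q.2| = 1 at h
    rwa [axE_abs, axE_abs] at h
  · change |axE a dx p.2 - axE a dx q.2| + |axE b dy p.1 - axE b dy q.1| = 1 at h
    rwa [axE_abs, axE_abs, add_comm] at h

lemma pos_spec {s a b : Bool} {dx dy c : ℕ} (h : 64 ≤ pos s a b dx dy c) :
    dec (pos s a b dx dy c) = symE s a b dx dy (dec c) := by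
  unfold pos at *
  rw [frc_eq] at *
  generalize hY : ax b dy (cond s (Nat.div c 32) (Nat.mod c 32)) = Y at *
  generalize hX : ax a dx (cond s (Nat.mod c 32) (Nat.div c 32)) = X at *
  cases hb : Nat.beq (Nat.div (Nat.add Y 30) 31) 1
  · rw [hb] at h
    exact absurd h (by simp)
  · rw [hb] at h
    have h1 : (Y + 30) / 31 = 1 := Nat.eq_of_beq_eq_true hb
    have h2 : 64 ≤ 32 * X + Y := h
    have e1 := ax_spec (hX ▸ (by omega : 0 < X))
    have e2 := ax_spec (hY ▸ (by omega : 0 < Y))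
    rw [hX] at e1
    rw [hY] at e2
    change ((((32 * X + Y) / 32 : ℕ) : ℤ), (((32 * X + Y) % 32 : ℕ) : ℤ)) = _
    rw [show (32 * X + Y) / 32 = X by omega, show (32 * X + Y) % 32 = Y by omega, e1, e2]
    cases s <;> rfl

def okc (c : ℕ) : Bool := Nat.ble 96 c && Nat.beq (Nat.div (Nat.add (Nat.mod c 32) 29) 30) 1

lemma nb_dec {c : ℕ} (h : okc c = true) (z : Cell) : z ∈ nb (dec c) ↔
    z = dec c ∨ z = dec (c + 32) ∨ z = dec (c - 32) ∨ z = dec (c + 1) ∨ z = dec (c - 1) := by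
  simp only [okc, Bool.and_eq_true, Nat.ble_eq, Nat.beq_eq] at h
  have h1 : 96 ≤ c := h.1
  have h2 : (c % 32 + 29) / 30 = 1 := h.2
  obtain ⟨u, w⟩ := z
  simp only [nb, adj, dec, Set.mem_ofPred_eq, Prod.mk.injEq]
  rcases abs_cases (((c / 32 : ℕ) : ℤ) - u) with ⟨a, a'⟩ | ⟨a, a'⟩ <;>
    rcases abs_cases (((c % 32 : ℕ) : ℤ) - w) with ⟨b, b'⟩ | ⟨b, b'⟩ <;> rw [a, b] <;> omega

def insN (m c : ℕ) : ℕ :=
  ins (ins (ins (ins (ins m c) (Nat.add c 32)) (Nat.sub c 32)) (Nat.add c 1)) (Nat.sub c 1)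

lemma sM_insN {m c : ℕ} (h : okc c = true) : sM (insN m c) ⊆ sM m ∪ nb (dec c) := by
  intro z hz
  have := (nb_dec h z).2
  rcases sM_ins hz with hz | hz
  · rcases sM_ins hz with hz | hz
    · rcases sM_ins hz with hz | hz
      · rcases sM_ins hz with hz | hz
        · exact (sM_ins hz).imp id fun hz => this (.inl hz)
        · exact .inr (this (.inr (.inl hz)))
      · exact .inr (this (.inr (.inr (.inl hz))))
    · exact .inr (this (.inr (.inr (.inr (.inl hz)))))
  · exact .inr (this (.inr (.inr (.inr (.inr hz)))))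

def memN (m c : ℕ) : Bool :=
  mem m c && (mem m (Nat.add c 32) && (mem m (Nat.sub c 32) &&
    (mem m (Nat.add c 1) && mem m (Nat.sub c 1))))

lemma nb_sub {m c : ℕ} (h : okc c = true) (hm : memN m c = true) : nb (dec c) ⊆ sM m := by
  simp only [memN, Bool.and_eq_true] at hm
  intro z hz
  rcases (nb_dec h z).1 hz with rfl | rfl | rfl | rfl | rfl
  exacts [⟨_, hm.1, rfl⟩, ⟨_, hm.2.1, rfl⟩, ⟨_, hm.2.2.1, rfl⟩, ⟨_, hm.2.2.2.1, rfl⟩,
    ⟨_, hm.2.2.2.2, rfl⟩]

/-! A state is a number: digits `0, 1, 2` hold the value, digits `3`, `4` the sizes of `O`, `F`. -/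

def vH (h : ℕ) : ℕ := Nat.mod h 281474976710656
def sO (h : ℕ) : Set Cell := sD h 5 (dg h 3)
def sF (h : ℕ) : Set Cell := sD h (5 + dg h 3) (dg h 4)

/-- values are multiples of `2 ^ (-36)` -/
noncomputable def val (v : ℕ) : ℝ := v / 68719476736

lemma val_mono {a b : ℕ} (h : a ≤ b) : val a ≤ val b := by
  unfold val
  gcongr

lemma val_mul (a b : ℕ) : val a * val b ≤ val (a * b / 68719476736 + 1) := by
  have h : a * b < (a * b / 68719476736 + 1) * 68719476736 := by omega
  have h' : (a : ℝ) * b ≤ ((a * b / 68719476736 + 1 : ℕ) : ℝ) * 68719476736 := by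
    exact_mod_cast h.le
  unfold val
  rw [div_mul_div_comm, div_le_div_iff₀ (by norm_num) (by norm_num)]
  nlinarith

noncomputable def covS (T : ℕ → ℕ) (bd R : ℕ) (ih : ℕ → ℕ → ℕ) (k m : ℕ) : ℕ :=
  frc (dg R k) fun i => frc (dg R (Nat.succ k)) fun t => frc (T i) fun h =>
    frc (dg h 3) fun nO => frc (Nat.mod (Nat.div t 8) 64) fun dx => frc (Nat.div t 512) fun dy =>
    cond (Nat.blt i bd && allD h (Nat.add 5 nO) (fun c => frc
        (pos (Nat.testBit t 0) (Nat.testBit t 1) (Nat.testBit t 2) dx dy c) (mem m)) (dg h 4))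
      (frc (orD h 5 (pos (Nat.testBit t 0) (Nat.testBit t 1) (Nat.testBit t 2) dx dy) m nO)
        fun m' => frc (ih (Nat.add k 2) m') fun r =>
          cond (Nat.beq r 0) 0 (Nat.succ (Nat.div (Nat.mul r (vH h)) 68719476736)))
      0

/-- product bound read from `n` pairs of digits of `R` starting at `k`; `0` means failure -/
noncomputable def cov (T : ℕ → ℕ) (bd R : ℕ) (test : ℕ → Bool) (n : ℕ) : ℕ → ℕ → ℕ :=
  Nat.rec (fun _ m => cond (test m) 68719476736 0) (fun _ ih => covS T bd R ih) n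

variable {x : ℝ} {N : ℕ}

lemma cov_sound (hx : 0 ≤ x) {T : ℕ → ℕ} {bd R : ℕ} {test : ℕ → Bool} {O : Set Cell}
    (hT : ∀ j < bd, Bd x N (sO (T j)) (sF (T j)) (val (vH (T j))))
    (ht : ∀ m, test m = true → O ⊆ sM m) (n : ℕ) : ∀ (k m : ℕ) (F : Set Cell), sM m ⊆ F →
      cov T bd R test n k m ≠ 0 → Bd x N O F (val (cov T bd R test n k m)) := by
  induction n with
  | zero =>
    intro k m F hF h
    change cond (test m) 68719476736 0 ≠ 0 at h
    change Bd x N O F (val (cond (test m) 68719476736 0))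
    cases hm : test m
    · simp [hm] at h
    · exact (Bd.empty ((ht m hm).trans hF)).le (by simp [val])
  | succ n ih =>
    intro k m F hF h
    generalize hv : cov T bd R test (n + 1) k m = v at h ⊢
    change covS T bd R (cov T bd R test n) k m = v at hv
    unfold covS at hv
    simp only [frc_eq] at hv
    generalize dg R k = i at hv
    generalize dg R k.succ = t at hv
    generalize Nat.testBit t 0 = s at hv
    generalize Nat.testBit t 1 = a at hv
    generalize Nat.testBit t 2 = b at hv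
    generalize Nat.mod (Nat.div t 8) 64 = dx at hv
    generalize Nat.div t 512 = dy at hv
    change cond _ (cond (Nat.beq (cov T bd R test n (k + 2) _) 0) 0
      (cov T bd R test n (k + 2) _ * _ / 68719476736 + 1)) 0 = v at hv
    rw [Bool.cond_eq_ite, Bool.cond_eq_ite] at hv
    split_ifs at hv with h1 h2
    · exact absurd hv.symm h
    swap
    · exact absurd hv.symm h
    rw [Bool.and_eq_true, Nat.blt_eq] at h1
    have c1 : Bd x N (symE s a b dx dy '' sO (T i)) F (val (vH (T i))) := by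
      refine ((hT i h1.1).map _ (symE_adj s a b dx dy)).mono (fun o ho => .inl ho) ?_
      rintro _ ⟨_, ⟨j, hj, rfl⟩, rfl⟩
      have h3 := allD_spec h1.2 j hj
      have h4 : 64 ≤ pos s a b dx dy (dg (T i) (5 + dg (T i) 3 + j)) := by
        simp only [mem, Bool.and_eq_true, Nat.ble_eq] at h3
        exact h3.1
      exact hF ⟨_, h3, pos_spec h4⟩
    have c2 := ih (k + 2) (orD (T i) 5 (pos s a b dx dy) m (dg (T i) 3))
      (F ∪ symE s a b dx dy '' sO (T i)) (by
        rintro _ ⟨d, hd, rfl⟩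
        rcases orD_spec hd with h3 | ⟨j, hj, rfl⟩
        · exact .inl (hF ⟨d, h3, rfl⟩)
        · simp only [mem, Bool.and_eq_true, Nat.ble_eq] at hd
          exact .inr ⟨_, ⟨j, hj, rfl⟩, (pos_spec hd.1).symm⟩)
      (fun h0 => h2 (by rw [h0]; rfl))
    rw [← hv]
    exact (Bd.prod hx c1 c2).le (val_mul _ _)

noncomputable def chnS (T : ℕ → ℕ) (bd R : ℕ) (t1 t2 : ℕ → Bool) (m0 : ℕ)
    (ih : ℕ → ℕ → ℕ → ℕ → ℕ → Bool) (k m lo M acc : ℕ) : Bool :=
  frc (dg R k) fun w => frc (dg R (Nat.succ k)) fun l =>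
    frc (insN m0 w) fun mw => frc (cov T bd R t1 l (Nat.add k 2) mw) fun g =>
    frc (Nat.add (Nat.add k 2) (Nat.mul 2 l)) fun k2 => frc (dg R k2) fun l2 =>
    frc (ins m w) fun m' => frc (cov T bd R t2 l2 (Nat.succ k2) m') fun M' =>
    frc (Nat.add (Nat.succ k2) (Nat.mul 2 l2)) fun k3 =>
    frc (Nat.add lo (Nat.sub g lo)) fun lo' =>
    frc (Nat.add acc (Nat.mul M (Nat.sub g lo))) fun acc' =>
    okc w && (Nat.blt 0 g && (Nat.blt 0 M' && ih k3 m' lo' M' acc'))

/-- the chain rule -/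
noncomputable def chn (T : ℕ → ℕ) (bd R : ℕ) (t1 t2 : ℕ → Bool) (m0 a v n : ℕ) :
    ℕ → ℕ → ℕ → ℕ → ℕ → Bool :=
  Nat.rec (fun _ _ lo M acc =>
      Nat.ble (Nat.add acc (Nat.mul M (Nat.sub a lo))) (Nat.mul v 68719476736))
    (fun _ ih => chnS T bd R t1 t2 m0 ih) n

lemma val_sub (a b : ℕ) : val (b + (a - b)) - val b = val (a - b) := by
  unfold val
  push_cast
  ring

lemma val_acc (acc M d : ℕ) : val (acc + M * d) / 68719476736 =
    val acc / 68719476736 + val M * val d := by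
  unfold val
  push_cast
  ring

lemma chn_sound (hx : 0 ≤ x) {T : ℕ → ℕ} {bd R m0 a v : ℕ} {t1 t2 : ℕ → Bool}
    {O O1 F : Set Cell} (hT : ∀ j < bd, Bd x N (sO (T j)) (sF (T j)) (val (vH (T j))))
    (h1 : ∀ m, t1 m = true → O1 ⊆ sM m) (h2 : ∀ m, t2 m = true → O ⊆ sM m) (h0 : sM m0 ⊆ F)
    {φ : Finset Cell → ℝ} (ha : ∀ U, φ U ≤ val a)
    (hφ : ∀ U, ∀ w ∈ U, ∀ g, Bd x N O1 (F ∪ nb w) g → φ U ≤ g) (n : ℕ) :
    ∀ (k m lo M acc : ℕ) (G : Set Cell), sM m ⊆ G → Bd x N O G (val M) →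
      chn T bd R t1 t2 m0 a v n k m lo M acc = true →
      ∀ B : Finset (Finset Cell), (∀ U ∈ B, Good O G U ∧ U.card < N) →
        ∑ U ∈ B, x ^ U.card * (φ U - val lo) ≤ val v - val acc / 68719476736 := by
  induction n with
  | zero =>
    intro k m lo M acc G _ hM h B hB
    have h3 : acc + M * (a - lo) ≤ v * 68719476736 := Nat.le_of_ble_eq_true h
    have h4 := hM.sum_mul hB hx (ψ := fun U => φ U - val lo) (d := val (a - lo))
      (by unfold val; positivity) fun U _ => by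
        rw [← val_sub]
        exact sub_le_sub_right ((ha U).trans (val_mono (by omega))) _
    have h5 := div_le_div_of_nonneg_right (val_mono h3) (by norm_num : (0 : ℝ) ≤ 68719476736)
    have h6 : val (v * 68719476736) / 68719476736 = val v := by
      unfold val
      push_cast
      ring
    rw [val_acc, h6] at h5
    linarith
  | succ n ih =>
    intro k m lo M acc G hG hM h B hB
    change chnS T bd R t1 t2 m0 (chn T bd R t1 t2 m0 a v n) k m lo M acc = true at h
    unfold chnS at h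
    simp only [frc_eq, Bool.and_eq_true, Nat.blt_eq] at h
    generalize dg R k = w at h
    generalize dg R k.succ = l at h
    obtain ⟨c1, c2, c3, c4⟩ := h
    have g1 := cov_sound hx hT h1 _ _ _ (F ∪ nb (dec w))
      ((sM_insN c1).trans (Set.union_subset_union_left _ h0)) c2.ne'
    have hG' : sM (ins m w) ⊆ G ∪ {dec w} := sM_ins.trans (Set.union_subset_union_left _ hG)
    have g2 := cov_sound hx hT h2 _ _ _ _ hG' c3.ne'
    have g3 := ih _ _ _ _ _ _ hG' g2 c4
    generalize cov T bd R t1 l (k.add 2) (insN m0 w) = g at *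
    have g4 := chain_step hx hM (val_mono (Nat.le_add_right lo (g - lo))) hB (φ := φ)
      (fun U hU => (hφ U _ hU _ g1).trans (val_mono (by omega))) g3
    have g5 := val_acc acc M (g - lo)
    rw [val_sub] at g4
    change _ ≤ _ + (_ - val (acc + M * (g - lo)) / _) at g4
    linarith

/-- check of state number `i` with the rule `R`, for `x = p / q` -/
noncomputable def node (p q : ℕ) (T : ℕ → ℕ) (n i R : ℕ) : Bool :=
  frc (T i) fun h => frc (dg h 3) fun nO => frc (orD h (Nat.add 5 nO) id 0 (dg h 4)) fun m0 =>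
  frc (dg R 1) fun c =>
  cond (Nat.beq (dg R 0) 0)
    (frc (ins m0 c) fun m1 => frc (dg R 2) fun l =>
      frc (cov T i R (fun m => allD h 5 (mem m) nO) l 3 m1) fun a =>
      frc (Nat.add 3 (Nat.mul 2 l)) fun k =>
      frc (cov T n R (fun m => allD h 5 (mem m) nO && memN m c) (dg R k) (Nat.succ k) m1) fun b =>
      okc c && (Nat.blt 0 a && (Nat.blt 0 b &&
        Nat.ble (Nat.add (Nat.mul q a) (Nat.mul p b)) (Nat.mul q (vH h)))))
    (frc (orD R 2 id m0 c) fun m2 => frc (Nat.add 2 c) fun k => frc (dg R k) fun l =>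
      frc (cov T i R (fun m => allD R 2 (mem m) c) l (Nat.succ k) m0) fun a =>
      frc (Nat.add (Nat.succ k) (Nat.mul 2 l)) fun k2 => frc (dg R k2) fun l2 =>
      frc (cov T i R (fun m => allD h 5 (mem m) nO) l2 (Nat.succ k2) m2) fun M =>
      frc (Nat.add (Nat.succ k2) (Nat.mul 2 l2)) fun k3 =>
      Nat.blt 0 a && (Nat.blt 0 M &&
        chn T i R (fun m => allD R 2 (mem m) c) (fun m => allD h 5 (mem m) nO) m0 a (vH h)
          (dg R k3) (Nat.succ k3) m2 0 M 0))

lemma node_sound {p q : ℕ} (hq : 0 < q) {T : ℕ → ℕ} {n i R : ℕ} (h : node p q T n i R = true)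
    (h1 : ∀ j < i, Bd (p / q) (N + 1) (sO (T j)) (sF (T j)) (val (vH (T j))))
    (h2 : ∀ j < n, Bd (p / q) N (sO (T j)) (sF (T j)) (val (vH (T j)))) :
    Bd (p / q) (N + 1) (sO (T i)) (sF (T i)) (val (vH (T i))) := by
  have hx : (0 : ℝ) ≤ p / q := by positivity
  unfold node at h
  simp only [frc_eq] at h
  have h0 : sM (orD (T i) (Nat.add 5 (dg (T i) 3)) id 0 (dg (T i) 4)) ⊆ sF (T i) :=
    sM_orD_id.trans (by rw [sM_zero, Set.empty_union]; rfl)
  generalize orD (T i) (Nat.add 5 (dg (T i) 3)) id 0 (dg (T i) 4) = m0 at h h0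
  generalize dg R 1 = c at h
  have t2 : ∀ m, allD (T i) 5 (mem m) (dg (T i) 3) = true → sO (T i) ⊆ sM m := fun m => sD_sub
  rw [Bool.cond_eq_ite] at h
  split_ifs at h
  · simp only [Bool.and_eq_true, Nat.blt_eq, Nat.ble_eq] at h
    obtain ⟨c1, c2, c3, c4⟩ := h
    have hm : sM (ins m0 c) ⊆ sF (T i) ∪ {dec c} :=
      sM_ins.trans (Set.union_subset_union_left _ h0)
    have g1 := cov_sound hx h1 t2 _ _ _ _ hm c2.ne'
    have g2 := cov_sound hx h2 (O := sO (T i) ∪ nb (dec c)) (fun m hm => by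
      rw [Bool.and_eq_true] at hm
      exact Set.union_subset (t2 m hm.1) (nb_sub c1 hm.2)) _ _ _ _ hm c3.ne'
    refine (Bd.expand hx _ g1 g2).le ?_
    generalize cov T i R _ _ _ _ = a at c4
    generalize cov T n R _ _ _ _ = b at c4
    have c5 : (q : ℝ) * a + p * b ≤ q * vH (T i) := by exact_mod_cast c4
    have hq' : (0 : ℝ) < q := by exact_mod_cast hq
    unfold val
    rw [← mul_div_assoc, ← add_div]
    refine div_le_div_of_nonneg_right (le_of_mul_le_mul_left ?_ hq') (by norm_num)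
    rwa [mul_add, ← mul_assoc, mul_div_cancel₀ _ hq'.ne']
  · simp only [Bool.and_eq_true, Nat.blt_eq] at h
    obtain ⟨c1, c2, c3⟩ := h
    have t1 : ∀ m, allD R 2 (mem m) c = true → sD R 2 c ⊆ sM m := fun m => sD_sub
    have hm : sM (orD R 2 id m0 c) ⊆ sF (T i) ∪ sD R 2 c :=
      sM_orD_id.trans (Set.union_subset_union_left _ h0)
    have g1 := cov_sound hx h1 t1 _ _ _ _ h0 c1.ne'
    have g2 := cov_sound hx h1 t2 _ _ _ _ hm c2.ne'
    refine Bd.split (O1 := sD R 2 c) fun B φ hB a1 a2 => ?_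
    simpa [val] using chn_sound hx h1 t1 t2 h0 (fun U => a1 U _ g1) a2 _ _ _ _ _ _ _ hm g2 c3 B hB

/-- check the states `i, …, e - 1` with the rules in the list -/
noncomputable def chk (p q : ℕ) (T : ℕ → ℕ) (n e : ℕ) (l : List ℕ) : ℕ → Bool :=
  List.rec (fun i => Nat.ble e i)
    (fun R _ ih i => node p q T n i R && frc (Nat.succ i) ih) l

lemma chk_sound {p q : ℕ} {T : ℕ → ℕ} {n e : ℕ} (l : List ℕ) : ∀ i, chk p q T n e l i = true →
    ∀ j, i ≤ j → j < e → ∃ R, node p q T n j R = true := by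
  induction l with
  | nil =>
    intro i h j h1 h2
    have : e ≤ i := Nat.le_of_ble_eq_true h
    omega
  | cons R l ih =>
    intro i h j h1 h2
    have h' : (node p q T n i R && frc (i + 1) (chk p q T n e l)) = true := h
    rw [frc_eq, Bool.and_eq_true] at h'
    rcases h1.eq_or_lt with rfl | h1
    · exact ⟨R, h'.1⟩
    · exact ih _ h'.2 j h1 h2

theorem sound {p q : ℕ} (hq : 0 < q) {T : ℕ → ℕ} {n : ℕ}
    (h : ∀ j < n, ∃ R, node p q T n j R = true) (N : ℕ) :
    ∀ j < n, Bd (p / q) N (sO (T j)) (sF (T j)) (val (vH (T j))) := by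
  induction N with
  | zero => exact fun j _ => Bd.zero (by unfold val; positivity)
  | succ N ih =>
    intro j
    induction j using Nat.strong_induction_on with
    | _ j ih2 =>
      intro hj
      obtain ⟨R, hR⟩ := h j hj
      exact node_sound hq hR (fun i hi => ih2 i hi (hi.trans hj)) ih

inductive Tr where
  | lf : ℕ → Tr
  | nd : Tr → Tr → Tr

noncomputable def Tr.get (t : Tr) : ℕ → ℕ :=
  Tr.rec (fun n _ => n) (fun _ _ l r i => frc (Nat.div i 2) fun j =>
    cond (Nat.beq (Nat.mod i 2) 0) (l j) (r j)) t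

end Pool.Agent.P.MP_d1c5d3_co
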