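import Mathlib

/-! Generating function bounds for finite sets of cells all of whose components meet a given set. -/

set_option autoImplicit false

open Finset

namespace Pool.Agent.P.MP_d1c5d3_co

abbrev Cell := ℤ × ℤ

def adj (p q : Cell) : Prop := |p.1 - q.1| + |p.2 - q.2| = 1

lemma adj.symm {p q : Cell} (h : adj p q) : adj q p := by
  unfold adj at *
  rwa [abs_sub_comm q.1, abs_sub_comm q.2]

/-- `q` can be reached from `p` by steps ending in `S` -/
def Rch (S : Finset Cell) : Cell → Cell → Prop := Relation.ReflTransGen fun p q => adj p q ∧ q ∈ S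

/-- `S` avoids `F` and every component of `S` meets `O` -/
def Good (O F : Set Cell) (S : Finset Cell) : Prop :=
  (∀ s ∈ S, s ∉ F) ∧ ∀ s ∈ S, ∃ o ∈ O, o ∈ S ∧ Rch S o s

/-- `v` bounds the truncated generating function of the good sets -/
def Bd (x : ℝ) (N : ℕ) (O F : Set Cell) (v : ℝ) : Prop :=
  ∀ A : Finset (Finset Cell), (∀ S ∈ A, Good O F S ∧ S.card < N) → ∑ S ∈ A, x ^ S.card ≤ v

/-- closed neighbourhood -/
def nb (w : Cell) : Set Cell := {z | z = w ∨ adj w z}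

variable {x : ℝ} {N : ℕ} {O O' O1 F F' : Set Cell} {v v' a b : ℝ}

lemma Good.mono {S : Finset Cell} (h : Good O F S) (hO : ∀ o ∈ O, o ∈ O' ∨ o ∈ F) (hF : F' ⊆ F) :
    Good O' F' S :=
  ⟨fun s hs hf => h.1 s hs (hF hf), fun s hs => by
    obtain ⟨o, h1, h2, h3⟩ := h.2 s hs
    exact ⟨o, (hO o h1).resolve_right (h.1 o h2), h2, h3⟩⟩

lemma Bd.mono (h : Bd x N O' F' v) (hO : ∀ o ∈ O, o ∈ O' ∨ o ∈ F) (hF : F' ⊆ F) :
    Bd x N O F v :=
  fun A hA => h A fun S hS => ⟨(hA S hS).1.mono hO hF, (hA S hS).2⟩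

lemma Bd.le (h : Bd x N O F v) (hv : v ≤ v') : Bd x N O F v' := fun A hA => (h A hA).trans hv

lemma Bd.zero (hv : 0 ≤ v) : Bd x 0 O F v := fun A hA => by
  obtain rfl : A = ∅ := eq_empty_of_forall_notMem fun S hS => absurd (hA S hS).2 (by simp)
  simpa using hv

lemma Bd.nonneg (h : Bd x N O F v) : 0 ≤ v := by simpa using h ∅ (by simp)

lemma Bd.empty (h : O ⊆ F) : Bd x N O F 1 := fun A hA => by
  have : A ⊆ {∅} := fun S hS => mem_singleton.2 (eq_empty_of_forall_notMem fun s hs => by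
    obtain ⟨o, h1, h2, -⟩ := (hA S hS).1.2 s hs
    exact (hA S hS).1.1 o h2 (h h1))
  rcases subset_singleton_iff.1 this with rfl | rfl <;> simp

lemma Good.erase {S : Finset Cell} (h : Good O F S) (c : Cell) :
    Good (O ∪ nb c) (F ∪ {c}) (S.erase c) := by
  refine ⟨fun s hs hf => hf.elim (h.1 s (mem_of_mem_erase hs)) (ne_of_mem_erase hs), fun s hs => ?_⟩
  obtain ⟨o, h1, h2, h3⟩ := h.2 s (mem_of_mem_erase hs)
  have key : ∀ t, Rch S o t → t = c ∨ ∃ o' ∈ O ∪ nb c, o' ∈ S.erase c ∧ Rch (S.erase c) o' t := by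
    intro t ht
    induction ht with
    | refl =>
      by_cases hc : o = c
      · exact Or.inl hc
      · exact Or.inr ⟨o, Or.inl h1, mem_erase.2 ⟨hc, h2⟩, .refl⟩
    | @tail p q _ hq ih =>
      by_cases hc : q = c
      · exact Or.inl hc
      · rcases ih with rfl | ⟨o', a1, a2, a3⟩
        · exact Or.inr ⟨q, Or.inr (Or.inr hq.1), mem_erase.2 ⟨hc, hq.2⟩, .refl⟩
        · exact Or.inr ⟨o', a1, a2, a3.tail ⟨hq.1, mem_erase.2 ⟨hc, hq.2⟩⟩⟩
  exact (key s h3).resolve_left (ne_of_mem_erase hs)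

lemma Bd.expand (hx : 0 ≤ x) (c : Cell) (ha : Bd x (N + 1) O (F ∪ {c}) a)
    (hb : Bd x N (O ∪ nb c) (F ∪ {c}) b) : Bd x (N + 1) O F (a + x * b) := fun A hA => by
  rw [← sum_filter_not_add_sum_filter A fun S => c ∈ S]
  refine add_le_add (ha _ fun S hS => ?_) ?_
  · obtain ⟨h1, h2⟩ := mem_filter.1 hS
    exact ⟨⟨fun s hs hf => hf.elim ((hA S h1).1.1 s hs) fun h => h2 (h ▸ hs), (hA S h1).1.2⟩,
      (hA S h1).2⟩
  · have h1 := hb ((A.filter fun S => c ∈ S).image fun S => S.erase c) fun T hT => by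
      obtain ⟨S, hS, rfl⟩ := mem_image.1 hT
      obtain ⟨h1, h2⟩ := mem_filter.1 hS
      have := card_erase_add_one h2
      exact ⟨(hA S h1).1.erase c, by have := (hA S h1).2; omega⟩
    rw [sum_image fun S hS T hT h => by
      rw [← insert_erase (mem_filter.1 hS).2, ← insert_erase (mem_filter.1 hT).2]
      exact congrArg _ h] at h1
    refine le_trans (le_of_eq ?_) (mul_le_mul_of_nonneg_left h1 hx)
    rw [mul_sum]
    refine sum_congr rfl fun S hS => ?_
    rw [← card_erase_add_one (mem_filter.1 hS).2, pow_succ']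

lemma Bd.map (g : Cell ≃ Cell) (hg : ∀ p q, adj (g p) (g q) → adj p q) (h : Bd x N O F v) :
    Bd x N (g '' O) (g '' F) v := fun A hA => by
  have h1 := h (A.image fun S => S.map g.symm.toEmbedding) fun T hT => by
    obtain ⟨S, hS, rfl⟩ := mem_image.1 hT
    have hm : ∀ t, t ∈ S.map g.symm.toEmbedding ↔ g t ∈ S := fun t => by simp
    refine ⟨⟨fun s hs hf => (hA S hS).1.1 _ ((hm s).1 hs) ⟨s, hf, rfl⟩, fun s hs => ?_⟩,
      by simpa using (hA S hS).2⟩
    obtain ⟨_, ⟨o, h1, rfl⟩, h2, h3⟩ := (hA S hS).1.2 _ ((hm s).1 hs)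
    refine ⟨o, h1, (hm o).2 h2, ?_⟩
    have key : ∀ t, Rch S (g o) t → Rch (S.map g.symm.toEmbedding) o (g.symm t) := by
      intro t ht
      induction ht with
      | refl => rw [g.symm_apply_apply]; exact .refl
      | tail _ hq ih =>
        exact ih.tail ⟨hg _ _ (by simpa using hq.1), (hm _).2 (by simpa using hq.2)⟩
    simpa using key _ h3
  rw [sum_image fun S _ T _ h => map_injective _ h] at h1
  simpa using h1

open Classical in
/-- the components of `S` that meet `O1` -/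
noncomputable def part (O1 : Set Cell) (S : Finset Cell) : Finset Cell :=
  S.filter fun s => ∃ o ∈ O1, o ∈ S ∧ Rch S o s

lemma part_adj {S : Finset Cell} {p q : Cell} (hp : p ∈ part O1 S) (hq : q ∈ S) (h : adj p q) :
    q ∈ part O1 S := by
  classical
  obtain ⟨-, o, h1, h2, h3⟩ := mem_filter.1 hp
  exact mem_filter.2 ⟨hq, o, h1, h2, h3.tail ⟨h, hq⟩⟩

lemma Good.part {S : Finset Cell} (h : Good O F S) : Good O1 F (part O1 S) := by
  classical
  refine ⟨fun s hs => h.1 s (mem_filter.1 hs).1, fun s hs => ?_⟩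
  obtain ⟨-, o, h1, h2, h3⟩ := mem_filter.1 hs
  have ho : o ∈ MP_d1c5d3_co.part O1 S := mem_filter.2 ⟨h2, o, h1, h2, .refl⟩
  refine ⟨o, h1, ho, ?_⟩
  clear hs
  induction h3 with
  | refl => exact .refl
  | tail hp hq ih => exact ih.tail ⟨hq.1, mem_filter.2 ⟨hq.2, o, h1, h2, .tail hp hq⟩⟩

lemma Good.rest {S : Finset Cell} (h : Good O F S) :
    Good O (F ∪ O1) (S \ MP_d1c5d3_co.part O1 S) := by
  classical
  refine ⟨fun s hs hf => ?_, fun s hs => ?_⟩
  · obtain ⟨h1, h2⟩ := mem_sdiff.1 hs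
    exact hf.elim (h.1 s h1) fun ho => h2 (mem_filter.2 ⟨h1, s, ho, h1, .refl⟩)
  · obtain ⟨h1, h2⟩ := mem_sdiff.1 hs
    obtain ⟨o, a1, a2, a3⟩ := h.2 s h1
    have key : ∀ t, Rch S o t → t ∈ S → t ∉ MP_d1c5d3_co.part O1 S →
        o ∉ MP_d1c5d3_co.part O1 S ∧ Rch (S \ MP_d1c5d3_co.part O1 S) o t := by
      intro t ht
      induction ht with
      | refl => exact fun _ h => ⟨h, .refl⟩
      | @tail p q hp hq ih =>
        intro b1 b2
        have hpS : p ∈ S := by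
          rcases hp.cases_tail with rfl | ⟨_, _, h⟩
          · exact a2
          · exact h.2
        obtain ⟨c1, c2⟩ := ih hpS fun hp' => b2 (part_adj hp' b1 hq.1)
        exact ⟨c1, c2.tail ⟨hq.1, mem_sdiff.2 ⟨b1, b2⟩⟩⟩
    obtain ⟨c1, c2⟩ := key s a3 h1 h2
    exact ⟨o, a1, mem_sdiff.2 ⟨a2, c1⟩, c2⟩

/-- Split every good set into the components meeting `O1` and the rest. -/
lemma Bd.split
    (h : ∀ (B : Finset (Finset Cell)) (φ : Finset Cell → ℝ),
      (∀ T ∈ B, Good O (F ∪ O1) T ∧ T.card < N) →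
      (∀ T a, Bd x N O1 F a → φ T ≤ a) →
      (∀ T, ∀ w ∈ T, ∀ g, Bd x N O1 (F ∪ nb w) g → φ T ≤ g) →
      ∑ T ∈ B, x ^ T.card * φ T ≤ v) : Bd x N O F v := fun A hA => by
  classical
  have hsub : ∀ S, part O1 S ⊆ S := fun S => filter_subset _ _
  set r : Finset Cell → Finset Cell := fun S => S \ part O1 S with hr
  have key : ∀ (T : Finset Cell) (F' : Set Cell) (a : ℝ), Bd x N O1 F' a →
      (∀ S ∈ A, r S = T → Good O1 F' (part O1 S)) →
      ∑ S ∈ A.filter (fun S => r S = T), x ^ (part O1 S).card ≤ a := by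
    intro T F' a ha hg
    have := ha ((A.filter fun S => r S = T).image (part O1)) fun U hU => by
      obtain ⟨S, hS, rfl⟩ := mem_image.1 hU
      obtain ⟨h1, h2⟩ := mem_filter.1 hS
      exact ⟨hg S h1 h2, (card_le_card (hsub S)).trans_lt (hA S h1).2⟩
    rwa [sum_image fun S hS S' hS' he => by
      rw [← sdiff_union_of_subset (hsub S), ← sdiff_union_of_subset (hsub S')]
      exact congrArg₂ _ ((mem_filter.1 hS).2.trans (mem_filter.1 hS').2.symm) he] at this
  refine le_trans (le_of_eq ?_) (h (A.image r)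
    (fun T => ∑ S ∈ A.filter (fun S => r S = T), x ^ (part O1 S).card) (fun T hT => ?_)
    (fun T a ha => key T F a ha fun S hS _ => (hA S hS).1.part) fun T w hw g hg =>
      key T _ g hg fun S hS hT => ?_)
  · rw [← sum_fiberwise_of_maps_to (g := r) (t := A.image r) fun S hS => mem_image_of_mem r hS]
    refine sum_congr rfl fun T _ => ?_
    rw [mul_sum]
    refine sum_congr rfl fun S hS => ?_
    rw [← (mem_filter.1 hS).2, ← pow_add, card_sdiff_add_card_eq_card (hsub S)]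
  · obtain ⟨S, hS, rfl⟩ := mem_image.1 hT
    exact ⟨(hA S hS).1.rest, (card_le_card sdiff_subset).trans_lt (hA S hS).2⟩
  · have h1 := (hA S hS).1.part (O1 := O1)
    subst hT
    obtain ⟨w1, w2⟩ := mem_sdiff.1 hw
    refine ⟨fun s hs hf => hf.elim (h1.1 s hs) fun hn => w2 ?_, h1.2⟩
    rcases hn with rfl | hn
    · exact hs
    · exact part_adj hs w1 hn.symm

lemma Bd.sum_mul (hM : Bd x N O F b) {B : Finset (Finset Cell)}
    (hB : ∀ T ∈ B, Good O F T ∧ T.card < N) (hx : 0 ≤ x) {ψ : Finset Cell → ℝ} {d : ℝ} (hd : 0 ≤ d)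
    (h : ∀ T ∈ B, ψ T ≤ d) : ∑ T ∈ B, x ^ T.card * ψ T ≤ b * d :=
  (sum_le_sum fun T hT => mul_le_mul_of_nonneg_left (h T hT) (pow_nonneg hx _)).trans
    ((Finset.sum_mul _ _ _).symm.trans_le (mul_le_mul_of_nonneg_right (hM B hB) hd))

lemma Bd.prod (hx : 0 ≤ x) (ha : Bd x N O1 F a) (hb : Bd x N O (F ∪ O1) b) :
    Bd x N O F (b * a) :=
  Bd.split fun _ _ hB h1 _ => hb.sum_mul hB hx ha.nonneg fun T _ => h1 T a ha

/-- one step of a chain: the sets containing `w` are bounded with the smaller value -/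
lemma chain_step (hx : 0 ≤ x) {M lo lo' r : ℝ} (hM : Bd x N O F M) (hlo : lo ≤ lo') {w : Cell}
    {B : Finset (Finset Cell)} (hB : ∀ T ∈ B, Good O F T ∧ T.card < N) {φ : Finset Cell → ℝ}
    (hw : ∀ T, w ∈ T → φ T ≤ lo')
    (ih : ∀ B' : Finset (Finset Cell), (∀ T ∈ B', Good O (F ∪ {w}) T ∧ T.card < N) →
      ∑ T ∈ B', x ^ T.card * (φ T - lo') ≤ r) :
    ∑ T ∈ B, x ^ T.card * (φ T - lo) ≤ M * (lo' - lo) + r := by
  have e : ∑ T ∈ B, x ^ T.card * (φ T - lo) =
      ∑ T ∈ B, x ^ T.card * (lo' - lo) + ∑ T ∈ B, x ^ T.card * (φ T - lo') := by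
    rw [← sum_add_distrib]
    exact sum_congr rfl fun T _ => by ring
  rw [e]
  refine add_le_add (hM.sum_mul hB hx (sub_nonneg.2 hlo) fun _ _ => le_rfl) ?_
  rw [← sum_filter_add_sum_filter_not B fun T => w ∈ T]
  have h1 : ∑ T ∈ B.filter (fun T => w ∈ T), x ^ T.card * (φ T - lo') ≤ 0 :=
    sum_nonpos fun T hT => mul_nonpos_of_nonneg_of_nonpos (pow_nonneg hx _)
      (sub_nonpos.2 (hw T (mem_filter.1 hT).2))
  have h2 := ih (B.filter fun T => ¬ w ∈ T) fun T hT => by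
    obtain ⟨h1, h2⟩ := mem_filter.1 hT
    exact ⟨⟨fun s hs hf => hf.elim ((hB T h1).1.1 s hs) fun h => h2 (h ▸ hs), (hB T h1).1.2⟩,
      (hB T h1).2⟩
  linarith

end Pool.Agent.P.MP_d1c5d3_co
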