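import Pool.Agent.P.MP_d1c5d3_co.Rng0
import Pool.Agent.P.MP_d1c5d3_co.Rng1
import Pool.Agent.P.MP_d1c5d3_co.Rng2
import Pool.Agent.P.MP_d1c5d3_co.Rng3

/-! The bound for sets whose lowest leftmost cell is the origin. -/

set_option autoImplicit false

open Finset

namespace Pool.Agent.P.MP_d1c5d3_co

theorem all_nodes (j : ℕ) (hj : j < 6942) : ∃ R, node 100 429 tb.get 6942 j R = true := by
  rcases Nat.lt_or_ge j 3009 with h | h0
  · exact range0 j (Nat.zero_le _) h
  rcases Nat.lt_or_ge j 4679 with h | h1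
  · exact range1 j h0 h
  rcases Nat.lt_or_ge j 5898 with h | h2
  · exact range2 j h1 h
  exact range3 j h2 hj

theorem root_bd (N : ℕ) : Bd (100 / 429) N {((0 : ℤ), (0 : ℤ))}
    {p | ¬ (0 < p.2 ∨ (p.2 = 0 ∧ 0 ≤ p.1))} (1 + 100 / 429 + 1) := by
  have h := (sound (by norm_num) all_nodes N 1042 (by norm_num)).map _
    (symE_adj false false false 26 29)
  have e : tb.get 1042 = 0x63014200830122010200e200c200a300c30008000100205d49ff32 := by
    decide +kernel
  rw [e] at h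
  refine (Bd.mono (by exact_mod_cast h) ?_ ?_).le ?_
  · rintro _ rfl
    exact Or.inl ⟨_, ⟨0, by decide +kernel, rfl⟩, by decide +kernel⟩
  · rintro _ ⟨_, ⟨j, hj, rfl⟩, rfl⟩
    revert j
    simp only [Set.mem_ofPred_eq]
    decide +kernel
  · have : vH 0x63014200830122010200e200c200a300c30008000100205d49ff32 = 139004084018 := by
      decide +kernel
    rw [this, val]
    norm_num

theorem card_le (n : ℕ) (A : Finset (Finset Cell)) (hA : ∀ S ∈ A, S.card = n ∧
    ((0 : ℤ), (0 : ℤ)) ∈ S ∧ (∀ p ∈ S, 0 < p.2 ∨ (p.2 = 0 ∧ 0 ≤ p.1)) ∧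
    ((SimpleGraph.fromRel (fun p q : ℤ × ℤ => |p.1 - q.1| + |p.2 - q.2| = 1)).induce
      (↑S : Set (ℤ × ℤ))).Connected) : (A.card : ℝ) ≤ (429 / 100) ^ n := by
  by_cases hn : n ≤ 1
  · have h1 : A ⊆ {{((0 : ℤ), (0 : ℤ))}} := fun S hS => mem_singleton.2
      (eq_singleton_iff_unique_mem.2 ⟨(hA S hS).2.1, fun z hz =>
        card_le_one.1 ((hA S hS).1.trans_le hn) _ hz _ (hA S hS).2.1⟩)
    have h2 : (A.card : ℝ) ≤ 1 := by exact_mod_cast card_le_card h1
    exact h2.trans (one_le_pow₀ (by norm_num))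
  have hG : ∀ S ∈ A, Good {((0 : ℤ), (0 : ℤ))} {p | ¬ (0 < p.2 ∨ (p.2 = 0 ∧ 0 ≤ p.1))} S := by
    intro S hS
    obtain ⟨-, h1, h2, h3⟩ := hA S hS
    refine ⟨fun s hs hf => hf (h2 s hs), fun s hs => ⟨_, rfl, h1, ?_⟩⟩
    have key : ∀ u : (↑S : Set (ℤ × ℤ)), Rch S (0, 0) u.1 := fun u => by
      have h4 := (SimpleGraph.reachable_iff_reflTransGen _ _).1 (h3.preconnected ⟨_, h1⟩ u)
      induction h4 with
      | refl => exact .refl
      | @tail p q _ hq ih => exact ih.tail ⟨hq.2.elim id adj.symm, q.2⟩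
    exact key ⟨s, hs⟩
  have n1 : ({((0 : ℤ), (0 : ℤ))} : Finset Cell) ∉ A := fun h => by
    have := (hA _ h).1
    rw [card_singleton] at this
    omega
  have n2 : (∅ : Finset Cell) ∉ insert {((0 : ℤ), (0 : ℤ))} A := fun h => by
    rcases mem_insert.1 h with h | h
    · exact singleton_ne_empty _ h.symm
    · exact notMem_empty _ (hA _ h).2.1
  have h := root_bd (n + 1) (insert ∅ (insert {((0 : ℤ), (0 : ℤ))} A)) fun S hS => by
    rcases mem_insert.1 hS with rfl | hS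
    · exact ⟨⟨by simp, by simp⟩, by simp⟩
    rcases mem_insert.1 hS with rfl | hS
    · refine ⟨⟨by simp, fun s hs => ⟨s, mem_singleton.1 hs, hs, .refl⟩⟩, ?_⟩
      rw [card_singleton]
      omega
    · exact ⟨hG S hS, by rw [(hA S hS).1]; omega⟩
  rw [sum_insert n2, sum_insert n1, sum_congr rfl fun S hS => by rw [(hA S hS).1], sum_const,
    nsmul_eq_mul, card_empty, card_singleton, pow_zero, pow_one] at h
  have h5 : (A.card : ℝ) * (100 / 429) ^ n ≤ 1 := by linarith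
  have h6 : ((100 : ℝ) / 429) ^ n * (429 / 100) ^ n = 1 := by
    rw [← mul_pow]
    norm_num
  calc (A.card : ℝ) = A.card * (100 / 429) ^ n * (429 / 100) ^ n := by rw [mul_assoc, h6, mul_one]
    _ ≤ 1 * (429 / 100) ^ n := by gcongr
    _ = _ := one_mul _

end Pool.Agent.P.MP_d1c5d3_co
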